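import Pool.Agent.TH339.MP.X6

/-!
# A zero-one law for the continuation of automorphic L-functions across the edge

Let `π` be an automorphic representation, unramified outside `S` and tempered at the primes outside
`S`, with Satake parameters `A_p` in the L-group `H` (for `GSp(2n)` the group `GSpin(2n+1)` over the
complex numbers), and `ρ` a representation of `H` of dimension `N`.  That `π_p` is tempered means that
`A_p` lies in a compact subgroup of `H`.  The partial L-function `L_S(s, π, ρ)` converges absolutely for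
`Re s > 1`.  Nothing is known in general about a continuation across any point of the line `Re s = 1`.
-/

set_option autoImplicit false

namespace Pool.Agent.Results.MP_eea520_nt.ContinuationZeroOne

open Filter Topology MeasureTheory

/-- `g` lies in a compact subgroup of `H`. -/
def IsTempered {H : Type} [Group H] [TopologicalSpace H] (g : H) : Prop :=
  ∃ C : Subgroup H, IsCompact (C : Set H) ∧ g ∈ C

section
variable {H : Type} [Group H] [TopologicalSpace H] {N : ℕ}

open Classical in
/-- The partial L-function `L_S(s, π, ρ) = ∏_{p ∉ S} det(1 - ρ(A_p) p^{-s})⁻¹`. -/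
noncomputable def partialL (A : ℕ → H) (ρ : H →* Matrix (Fin N) (Fin N) ℂ) (S : Finset ℕ)
    (s : ℂ) : ℂ :=
  ∏' p : Nat.Primes, if (p : ℕ) ∈ S then 1 else
    ((1 - (((p : ℕ) : ℂ) ^ (-s)) • ρ (A p)).det)⁻¹

/-- The finite Euler product `∏_{p ≤ X, p ∉ S} det(1 - ρ(A_p) p^{-s})⁻¹`. -/
noncomputable def finiteL (A : ℕ → H) (ρ : H →* Matrix (Fin N) (Fin N) ℂ) (S : Finset ℕ)
    (X : ℕ) (s : ℂ) : ℂ :=
  ∏ p ∈ (Finset.range (X + 1)).filter (fun p => p.Prime ∧ p ∉ S),
    ((1 - ((p : ℂ) ^ (-s)) • ρ (A p)).det)⁻¹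

/-- The points `τ` with `1 + iτ` in `U` at which the Euler product on the line has the value
`g(1 + iτ)/h(1 + iτ)`, that is `h(1 + iτ) ∏_{p ≤ X, p ∉ S} det(1 - ρ(A_p) p^{-1-iτ})⁻¹` tends to
`g(1 + iτ)` as `X → ∞`. -/
def agreeOnLine (A : ℕ → H) (ρ : H →* Matrix (Fin N) (Fin N) ℂ) (S : Finset ℕ) (U : Set ℂ)
    (h g : ℂ → ℂ) : Set ℝ :=
  {τ : ℝ | (1 + τ * Complex.I : ℂ) ∈ U ∧
    Tendsto (fun X : ℕ => h (1 + τ * Complex.I) * finiteL A ρ S X (1 + τ * Complex.I)) atTop
      (𝓝 (g (1 + τ * Complex.I)))}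

/-- The points `τ` with `1 + iτ` in `U` at which the boundary value of `L_S(s, π, ρ)` is that of
`g/h`: `h(σ + iτ) L_S(σ + iτ, π, ρ) - g(σ + iτ)` tends to `0` as `σ` decreases to `1`. -/
def agreeAtBoundary (A : ℕ → H) (ρ : H →* Matrix (Fin N) (Fin N) ℂ) (S : Finset ℕ) (U : Set ℂ)
    (h g : ℂ → ℂ) : Set ℝ :=
  {τ : ℝ | (1 + τ * Complex.I : ℂ) ∈ U ∧
    Tendsto (fun σ : ℝ => h (σ + τ * Complex.I) * partialL A ρ S (σ + τ * Complex.I) -
      g (σ + τ * Complex.I)) (𝓝[>] 1) (𝓝 0)}

end

/-- **Zero-one law for the continuation.**  Let `H` be a topological group, `A_p` (`p ∉ S` prime)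
elements of compact subgroups of `H`, and `ρ` a continuous representation of `H` of dimension `N`.  Let
`U` be an open set whose part in `Re s > 1` is connected (for example a disc centred on the line
`Re s = 1`) and let `h`, `g` be analytic in `U`.

* If the set of `τ` at which the Euler product on the line has the value `g/h` is not a null set, or the
  set of `τ` at which the boundary value of `L_S(s, π, ρ)` is that of `g/h` is not a null set, then
  `h(s) L_S(s, π, ρ) = g(s)` for all `s` in `U` with `Re s > 1`.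
* Conversely, if `h(s) L_S(s, π, ρ) = g(s)` for all `s` in `U` with `Re s > 1`, then for all `τ` with
  `1 + iτ` in `U` outside a set of Hausdorff dimension `0` the Euler product on the line has the value
  `g/h`. -/
theorem result (H : Type) [Group H] [TopologicalSpace H] (N : ℕ) (A : ℕ → H) (S : Finset ℕ)
    (hA : ∀ p : ℕ, p.Prime → p ∉ S → IsTempered (A p))
    (ρ : H →* Matrix (Fin N) (Fin N) ℂ) (hρ : Continuous ρ)
    (U : Set ℂ) (hU : IsOpen U) (hUc : IsPreconnected (U ∩ {s : ℂ | 1 < s.re}))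
    (h g : ℂ → ℂ) (hh : DifferentiableOn ℂ h U) (hg : DifferentiableOn ℂ g U) :
    (volume (agreeOnLine A ρ S U h g) ≠ 0 ∨ volume (agreeAtBoundary A ρ S U h g) ≠ 0 →
      ∀ s ∈ U, 1 < s.re → h s * partialL A ρ S s = g s) ∧
    ((∀ s ∈ U, 1 < s.re → h s * partialL A ρ S s = g s) →
      dimH ({τ : ℝ | (1 + τ * Complex.I : ℂ) ∈ U} \ agreeOnLine A ρ S U h g) = 0) := by
  have hex : ∀ p : ℕ, ∃ α : Fin N → ℂ, (ρ (A p)).charpoly.roots =
      Multiset.map α Finset.univ.val := fun p => Pool.Agent.TH339.MP.exists_eig _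
  choose α hα using hex
  have h1 : ∀ p : ℕ, p.Prime → p ∉ S → ∀ j, ‖α p j‖ ≤ 1 := by
    intro p hp hpS j
    obtain ⟨C, hC, hg⟩ := hA p hp hpS
    refine Pool.Agent.TH339.MP.eig_le_one ρ hρ C hC hg ?_
    rw [hα p]
    exact Multiset.mem_map_of_mem _ (Finset.mem_univ_val j)
  have hb := Pool.Agent.TH339.MP.norm_bα h1
  set b := Pool.Agent.TH339.MP.bα α S with hbdef
  have hL : ∀ s : ℂ, 1 < s.re → partialL A ρ S s =
      Complex.exp (Pool.Agent.TH339.MP.FF b s) := by
    intro s hs
    rw [← (Pool.Agent.TH339.MP.hasProd_α h1 hs).tprod_eq]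
    unfold partialL
    refine tprod_congr fun p => ?_
    unfold Pool.Agent.TH339.MP.fα
    by_cases hp : (p : ℕ) ∈ S
    · rw [if_pos hp, if_pos hp]
    · rw [if_neg hp, if_neg hp, Pool.Agent.TH339.MP.det_one_sub _ _ (hα p),
        Finset.prod_inv_distrib]
  have hre1 : ∀ τ : ℝ, (1 : ℝ) ≤ (1 + τ * Complex.I : ℂ).re := fun τ => by simp
  -- the Euler product on the line
  have hfin : ∀ τ : ℝ, τ ∉ Pool.Agent.W350.Edge.divSet (Pool.Agent.TH339.MP.ap b) →
      Tendsto (fun X : ℕ => finiteL A ρ S X (1 + τ * Complex.I)) atTop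
        (𝓝 (Complex.exp (Pool.Agent.TH339.MP.bl b τ))) := by
    intro τ hτ
    set L : ℕ → ℂ := fun n => if hn : n.Prime then
      Pool.Agent.TH339.MP.lα α S (1 + τ * Complex.I) ⟨n, hn⟩ else 0 with hLdef
    have hLp : ∀ p : Nat.Primes, L p = Pool.Agent.TH339.MP.lα α S (1 + τ * Complex.I) p := by
      intro p
      simp only [hLdef]
      rw [dif_pos p.2]
      rfl
    have h2 := Pool.Agent.TH339.MP.line_sum hb hτ L (fun p => by
      rw [hLp p]
      exact Pool.Agent.TH339.MP.hasSum_lα h1 p (hre1 τ))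
    have h3 := (Complex.continuous_exp.tendsto _).comp h2
    refine h3.congr fun X => ?_
    simp only [Function.comp_apply]
    rw [Complex.exp_sum]
    unfold finiteL
    rw [← Finset.filter_filter, Finset.prod_filter (p := fun p => p ∉ S)]
    refine Finset.prod_congr rfl fun p hp => ?_
    rw [Finset.mem_filter] at hp
    have h4 := Pool.Agent.TH339.MP.exp_lα h1 ⟨p, hp.2⟩ (hre1 τ)
    have h5 : L p = Pool.Agent.TH339.MP.lα α S (1 + τ * Complex.I) ⟨p, hp.2⟩ := hLp ⟨p, hp.2⟩
    rw [h5, h4]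
    unfold Pool.Agent.TH339.MP.fα
    by_cases hpS : p ∈ S
    · have : ((⟨p, hp.2⟩ : Nat.Primes) : ℕ) ∈ S := hpS
      rw [if_pos this, if_neg (not_not.2 hpS)]
    · have : ((⟨p, hp.2⟩ : Nat.Primes) : ℕ) ∉ S := hpS
      rw [if_neg this, if_pos hpS, Pool.Agent.TH339.MP.det_one_sub _ _ (hα p),
        Finset.prod_inv_distrib]
  have hnull := Pool.Agent.TH339.MP.volume_divSet hb
  have hrad : ∀ τ : ℝ, τ ∉ Pool.Agent.W350.Edge.divSet (Pool.Agent.TH339.MP.ap b) →
      (1 + τ * Complex.I : ℂ) ∈ U →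
      Tendsto (fun x : ℝ => h (1 + τ * Complex.I + x) * Complex.exp (Pool.Agent.TH339.MP.FF b
        (1 + τ * Complex.I + x)) - g (1 + τ * Complex.I + x)) (𝓝[>] 0)
        (𝓝 (h (1 + τ * Complex.I) * Complex.exp (Pool.Agent.TH339.MP.bl b τ) -
          g (1 + τ * Complex.I))) := by
    intro τ hτ hτU
    have h2 := (Complex.continuous_exp.tendsto _).comp (Pool.Agent.TH339.MP.radial_x hb hτ)
    have h3 : Tendsto (fun x : ℝ => (1 + τ * Complex.I + x : ℂ)) (𝓝[>] 0)
        (𝓝 (1 + τ * Complex.I)) := by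
      have h4 : Continuous fun x : ℝ => (1 + τ * Complex.I + x : ℂ) := by fun_prop
      have h5 := h4.tendsto 0
      rw [Complex.ofReal_zero, add_zero] at h5
      exact h5.mono_left nhdsWithin_le_nhds
    have h4 := (hh.continuousOn.continuousAt (hU.mem_nhds hτU)).tendsto.comp h3
    have h5 := (hg.continuousOn.continuousAt (hU.mem_nhds hτU)).tendsto.comp h3
    exact (h4.mul h2).sub h5
  refine ⟨?_, ?_⟩
  · intro hvol s hs hs1
    rw [hL s hs1]
    rcases hvol with hvol | hvol
    · refine Pool.Agent.TH339.MP.unique_b hb hU hUc hh hg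
        (Pool.Agent.TH339.MP.volume_diff_ne hvol hnull) ?_ ?_ s hs hs1
      · intro τ hτ
        exact hτ.1.1
      · intro τ hτ
        have h2 := hrad τ hτ.2 hτ.1.1
        have h3 := tendsto_nhds_unique hτ.1.2 ((hfin τ hτ.2).const_mul _)
        rw [← h3, sub_self] at h2
        exact h2
    · refine Pool.Agent.TH339.MP.unique_b hb hU hUc hh hg hvol ?_ ?_ s hs hs1
      · intro τ hτ
        exact hτ.1
      · intro τ hτ
        have h3 : Tendsto (fun x : ℝ => 1 + x) (𝓝[>] 0) (𝓝[>] 1) := by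
          rw [tendsto_nhdsWithin_iff]
          constructor
          · have h4 : Continuous fun x : ℝ => 1 + x := by fun_prop
            have h5 := h4.tendsto 0
            rw [add_zero] at h5
            exact h5.mono_left nhdsWithin_le_nhds
          · filter_upwards [self_mem_nhdsWithin] with x hx
            have hx' : 0 < x := hx
            change 1 < 1 + x
            linarith
        refine (hτ.2.comp h3).congr' ?_
        filter_upwards [self_mem_nhdsWithin] with x hx
        have hx' : 0 < x := hx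
        have e : (((1 + x : ℝ) : ℂ) + τ * Complex.I) = 1 + τ * Complex.I + x := by
          push_cast
          ring
        simp only [Function.comp_apply]
        rw [e, hL]
        simpa using hx'
  · intro hid
    refine le_antisymm ?_ bot_le
    have hdim := Pool.Agent.W350.Edge.dimH_divSet (Pool.Agent.TH339.MP.ap b) (N : ℝ)
      (Pool.Agent.TH339.MP.norm_ap hb)
    rw [← hdim]
    refine dimH_mono ?_
    rintro τ ⟨hτU, hτ⟩
    by_contra hdiv
    apply hτ
    refine ⟨hτU, ?_⟩
    have h2 := hrad τ hdiv hτU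
    have h3 : Tendsto (fun x : ℝ => h (1 + τ * Complex.I + x) *
        Complex.exp (Pool.Agent.TH339.MP.FF b (1 + τ * Complex.I + x)) -
        g (1 + τ * Complex.I + x)) (𝓝[>] 0) (𝓝 0) := by
      refine (tendsto_congr' ?_).2 tendsto_const_nhds
      have h4 : Continuous fun x : ℝ => (1 + τ * Complex.I + x : ℂ) := by fun_prop
      have h5 : ∀ᶠ x : ℝ in 𝓝 0, (1 + τ * Complex.I + x : ℂ) ∈ U := by
        refine h4.continuousAt.eventually (p := fun y => y ∈ U) ?_
        have e : (1 + τ * Complex.I + ((0 : ℝ) : ℂ) : ℂ) = 1 + τ * Complex.I := by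
          rw [Complex.ofReal_zero, add_zero]
        change ∀ᶠ y in 𝓝 (1 + τ * Complex.I + ((0 : ℝ) : ℂ) : ℂ), y ∈ U
        rw [e]
        exact hU.mem_nhds hτU
      filter_upwards [mem_nhdsWithin_of_mem_nhds h5, self_mem_nhdsWithin] with x hx hx0
      have hx' : 0 < x := hx0
      have hre : 1 < (1 + τ * Complex.I + x : ℂ).re := by simpa using hx'
      rw [← hL _ hre, hid _ hx hre, sub_self]
    have h4 := tendsto_nhds_unique h2 h3
    rw [← sub_eq_zero.1 h4]
    exact (hfin τ hdiv).const_mul _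

end Pool.Agent.Results.MP_eea520_nt.ContinuationZeroOne
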