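import Pool.Agent.TH339.MP.R1

/-!
# Boundary values and almost periodicity on the edge of absolute convergence

Let `π` be an automorphic representation, unramified outside `S` and tempered at the primes outside
`S`, with Satake parameters `A_p` in the L-group `H` (for `GSp(2n)` the group `GSpin(2n+1)` over the
complex numbers), and `ρ` a representation of `H` of dimension `N`.  That `π_p` is tempered means that
`A_p` lies in a compact subgroup of `H`.  The partial L-function `L_S(s, π, ρ)` converges absolutely for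
`Re s > 1`.  The theorem describes its boundary values on the line `Re s = 1`, without any continuation.
-/

set_option autoImplicit false

namespace Pool.Agent.Results.MP_eea520_nt.EdgeAlmostPeriodicity

open Filter Topology MeasureTheory

/-- `g` lies in a compact subgroup of `H`. -/
def IsTempered {H : Type} [Group H] [TopologicalSpace H] (g : H) : Prop :=
  ∃ C : Subgroup H, IsCompact (C : Set H) ∧ g ∈ C

section
variable {H : Type} [Group H] [TopologicalSpace H] {N : ℕ}

open Classical in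
/-- The partial L-function `L_S(s, π, ρ) = ∏_{p ∉ S} det(1 - ρ(A_p) p^{-s})⁻¹`. -/
noncomputable def partialL (A : ℕ → H) (ρ : H →* Matrix (Fin N) (Fin N) ℂ) (S : Finset ℕ)
    (s : ℂ) : ℂ :=
  ∏' p : Nat.Primes, if (p : ℕ) ∈ S then 1 else
    ((1 - (((p : ℕ) : ℂ) ^ (-s)) • ρ (A p)).det)⁻¹

/-- `α p 0, …, α p (N-1)` are the eigenvalues of `ρ(A_p)` with their multiplicities, for the primes
`p ∉ S`. -/
def IsEigenvalues (A : ℕ → H) (ρ : H →* Matrix (Fin N) (Fin N) ℂ) (S : Finset ℕ)
    (α : ℕ → Fin N → ℂ) : Prop :=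
  ∀ p : ℕ, p.Prime → p ∉ S → (ρ (A p)).charpoly.roots = Multiset.map (α p) Finset.univ.val

end

/-- The trigonometric polynomial `∑ (∑_j α_{p,j}^k) / (k p^{k(1+iτ)})`, the sum over the prime powers
`p^k ≤ X`, `k ≥ 1`, `p ∉ S`. -/
noncomputable def edgeSum {N : ℕ} (α : ℕ → Fin N → ℂ) (S : Finset ℕ) (X : ℕ) (τ : ℝ) : ℂ :=
  ∑ p ∈ (Finset.range (X + 1)).filter fun p => p.Prime ∧ p ∉ S,
    ∑ k ∈ (Finset.range (X + 1)).filter fun k => 1 ≤ k ∧ p ^ k ≤ X,
      (∑ j, α p j ^ k) / (k : ℂ) * ((p : ℂ) ^ (-(1 + τ * Complex.I : ℂ))) ^ k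

/-- The angle `|s - (1 + iτ)| ≤ C (Re s - 1)` at `1 + iτ` in the half-plane `Re s > 1`. -/
def angle (τ C : ℝ) : Set ℂ :=
  {s : ℂ | 1 < s.re ∧ ‖s - (1 + τ * Complex.I)‖ ≤ C * (s.re - 1)}

/-- **Almost periodicity on the edge.**  Let `H` be a topological group, `A_p` (`p ∉ S` prime) elements
of compact subgroups of `H`, and `ρ` a continuous representation of `H` of dimension `N`.  There is a
measurable function `l` on the real line such that

* `L_S(s, π, ρ)` tends to `exp(l(τ))` as `s` tends to `1 + iτ` in any angle in the half-plane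
  `Re s > 1`, for all real `τ` outside a set of Hausdorff dimension `0`;
* for all `X ≥ 2` the mean square of `l(τ) - ∑_{p^k ≤ X} tr ρ(A_p)^k / (k p^{k(1+iτ)})` over every
  interval of length one is at most `64800 N² / log X`.

So the logarithm of the boundary function is almost periodic in the sense of Stepanov, with the Fourier
series given by the Euler product, and the rate depends on nothing but the dimension of `ρ`. -/
theorem result (H : Type) [Group H] [TopologicalSpace H] (N : ℕ) (A : ℕ → H) (S : Finset ℕ)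
    (hA : ∀ p : ℕ, p.Prime → p ∉ S → IsTempered (A p))
    (ρ : H →* Matrix (Fin N) (Fin N) ℂ) (hρ : Continuous ρ) (α : ℕ → Fin N → ℂ)
    (hα : IsEigenvalues A ρ S α) :
    ∃ l : ℝ → ℂ, AEMeasurable l ∧
      (∃ T : Set ℝ, dimH T = 0 ∧ ∀ τ : ℝ, τ ∉ T → ∀ C : ℝ,
        Tendsto (partialL A ρ S) (𝓝[angle τ C] (1 + τ * Complex.I)) (𝓝 (Complex.exp (l τ)))) ∧
      ∀ X : ℕ, 2 ≤ X → ∀ t : ℝ,
        ∫⁻ τ in Set.Icc t (t + 1), ENNReal.ofReal (‖l τ - edgeSum α S X τ‖ ^ 2) ≤
          ENNReal.ofReal (64800 * (N : ℝ) ^ 2 / Real.log X) := by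
  have h1 : ∀ p : ℕ, p.Prime → p ∉ S → ∀ j, ‖α p j‖ ≤ 1 := by
    intro p hp hpS j
    obtain ⟨C, hC, hg⟩ := hA p hp hpS
    refine Pool.Agent.TH339.MP.eig_le_one ρ hρ C hC hg ?_
    rw [hα p hp hpS]
    exact Multiset.mem_map_of_mem _ (Finset.mem_univ_val j)
  have hb := Pool.Agent.TH339.MP.norm_bα h1
  obtain ⟨h2, h3, h4⟩ := Pool.Agent.TH339.MP.boundary hb
  have hL : ∀ s : ℂ, 1 < s.re → partialL A ρ S s =
      Complex.exp (Pool.Agent.TH339.MP.FF (Pool.Agent.TH339.MP.bα α S) s) := by
    intro s hs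
    rw [← (Pool.Agent.TH339.MP.hasProd_α h1 hs).tprod_eq]
    unfold partialL
    refine tprod_congr fun p => ?_
    unfold Pool.Agent.TH339.MP.fα
    by_cases hp : (p : ℕ) ∈ S
    · rw [if_pos hp, if_pos hp]
    · rw [if_neg hp, if_neg hp, Pool.Agent.TH339.MP.det_one_sub _ _ (hα p p.2 hp),
        Finset.prod_inv_distrib]
  refine ⟨Pool.Agent.TH339.MP.bl (Pool.Agent.TH339.MP.bα α S), h2,
    ⟨_, h3, fun τ hτ C => ?_⟩, fun X hX t => ?_⟩
  · have h5 := Pool.Agent.TH339.MP.bl_angle hb hτ C
    have h6 : Tendsto (fun s : ℂ => s - (1 + τ * Complex.I)) (𝓝[angle τ C] (1 + τ * Complex.I))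
        (𝓝[{z : ℂ | 0 < z.re ∧ ‖z‖ ≤ C * z.re}] 0) := by
      rw [tendsto_nhdsWithin_iff]
      constructor
      · have h7 : Tendsto (fun s : ℂ => s - (1 + τ * Complex.I)) (𝓝 (1 + τ * Complex.I))
            (𝓝 ((1 + τ * Complex.I) - (1 + τ * Complex.I))) :=
          (continuous_id.sub continuous_const).tendsto _
        rw [sub_self] at h7
        exact h7.mono_left nhdsWithin_le_nhds
      · filter_upwards [self_mem_nhdsWithin] with s hs
        have hre : (s - (1 + τ * Complex.I)).re = s.re - 1 := by simp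
        refine ⟨?_, ?_⟩
        · rw [hre]
          linarith [hs.1]
        · rw [hre]
          exact hs.2
    have h7 := (Complex.continuous_exp.tendsto _).comp (h5.comp h6)
    refine h7.congr' ?_
    filter_upwards [self_mem_nhdsWithin] with s hs
    rw [hL s hs.1]
    simp only [Function.comp_apply]
    congr 2
    ring
  · have h5 := h4 X hX t
    have h6 : ∀ τ, edgeSum α S X τ =
        Pool.Agent.TH339.MP.PS (Pool.Agent.TH339.MP.bα α S) X τ :=
      fun τ => (Pool.Agent.TH339.MP.PS_eq α S X τ).symm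
    simp_rw [h6]
    exact h5

end Pool.Agent.Results.MP_eea520_nt.EdgeAlmostPeriodicity
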