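import Pool.Agent.TH345.ET.P

/-!
# Algebraic independence of the boundary values on the edge of absolute convergence

Let `π` be an automorphic representation, unramified outside `S` and tempered at the primes outside
`S`, with Satake parameters `A_p` in the L-group `H` (for `GSp(2n)` the group `GSpin(2n+1)` over the
complex numbers), and `ρ` a representation of `H` of dimension `N ≥ 1`.  That `π_p` is tempered means
that `A_p` lies in a compact subgroup of `H`.  The partial L-function `L_S(s, π, ρ)` converges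
absolutely for `Re s > 1`.  The theorem describes its boundary values on the line `Re s = 1`, without
any continuation.
-/

set_option autoImplicit false

namespace Pool.Agent.Results.MP_eea520_nt.EdgeTranscendence

open Filter Topology MeasureTheory

/-- `g` lies in a compact subgroup of `H`. -/
def IsTempered {H : Type} [Group H] [TopologicalSpace H] (g : H) : Prop :=
  ∃ C : Subgroup H, IsCompact (C : Set H) ∧ g ∈ C

open Classical in
/-- The partial L-function `L_S(s, π, ρ) = ∏_{p ∉ S} det(1 - ρ(A_p) p^{-s})⁻¹`. -/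
noncomputable def partialL {H : Type} [Group H] {N : ℕ} (A : ℕ → H)
    (ρ : H →* Matrix (Fin N) (Fin N) ℂ) (S : Finset ℕ) (s : ℂ) : ℂ :=
  ∏' p : Nat.Primes, if (p : ℕ) ∈ S then 1 else
    ((1 - (((p : ℕ) : ℂ) ^ (-s)) • ρ (A p)).det)⁻¹

/-- The angle `|s - (1 + iτ)| ≤ C (Re s - 1)` at `1 + iτ` in the half-plane `Re s > 1`. -/
def angle (τ C : ℝ) : Set ℂ :=
  {s : ℂ | 1 < s.re ∧ ‖s - (1 + τ * Complex.I)‖ ≤ C * (s.re - 1)}

/-- The family consisting of the number `τ`, the numbers `p^{iτ}` for all primes `p`, and the numbers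
`l(τ + t)` for `t ∈ T`. -/
noncomputable def numbers (l : ℝ → ℂ) (T : Set ℝ) (τ : ℝ) : Unit ⊕ (Nat.Primes ⊕ T) → ℂ :=
  Sum.elim (fun _ => (τ : ℂ)) (Sum.elim (fun p => ((p : ℕ) : ℂ) ^ ((τ : ℂ) * Complex.I))
    (fun t => l (τ + (t : ℝ))))

/-- **Algebraic independence on the edge.**  Let `H` be a topological group, `A_p` (`p ∉ S` prime)
elements of compact subgroups of `H`, and `ρ` a continuous representation of `H` of dimension `N ≥ 1`.
There is a function `l` on the real line such that

* `L_S(s, π, ρ)` tends to `l(τ)` as `s` tends to `1 + iτ` in any angle in the half-plane `Re s > 1`,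
  for all real `τ` outside a set of Hausdorff dimension `0`;
* for every countable subfield `K` of the complex numbers and every countable set `T` of real numbers,
  for almost every real `τ` the numbers `τ`, `p^{iτ}` (`p` prime) and `l(τ + t)` (`t ∈ T`) are
  algebraically independent over `K`. -/
theorem result (H : Type) [Group H] [TopologicalSpace H] (N : ℕ) (hN : 0 < N) (A : ℕ → H)
    (S : Finset ℕ) (hA : ∀ p : ℕ, p.Prime → p ∉ S → IsTempered (A p))
    (ρ : H →* Matrix (Fin N) (Fin N) ℂ) (hρ : Continuous ρ) :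
    ∃ l : ℝ → ℂ,
      (∃ E : Set ℝ, dimH E = 0 ∧ ∀ τ : ℝ, τ ∉ E → ∀ C : ℝ,
        Tendsto (partialL A ρ S) (𝓝[angle τ C] (1 + τ * Complex.I)) (𝓝 (l τ))) ∧
      ∀ K : Subfield ℂ, Countable K → ∀ T : Set ℝ, T.Countable →
        ∀ᵐ τ : ℝ, AlgebraicIndependent K (numbers l T τ) := by
  obtain ⟨α, hα, h1, hα0⟩ := Pool.Agent.TH345.ET.exists_eig A S hA ρ hρ
  have hb := Pool.Agent.TH339.MP.norm_bα h1
  obtain ⟨h2, h3, h4⟩ := Pool.Agent.TH339.MP.boundary hb
  have hL : ∀ s : ℂ, 1 < s.re → partialL A ρ S s =
      Complex.exp (Pool.Agent.TH339.MP.FF (Pool.Agent.TH339.MP.bα α S) s) := by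
    intro s hs
    rw [← (Pool.Agent.TH339.MP.hasProd_α h1 hs).tprod_eq]
    unfold partialL
    refine tprod_congr fun p => ?_
    unfold Pool.Agent.TH339.MP.fα
    by_cases hp : (p : ℕ) ∈ S
    · rw [if_pos hp, if_pos hp]
    · rw [if_neg hp, if_neg hp, Pool.Agent.TH339.MP.det_one_sub _ _ (hα p),
        Finset.prod_inv_distrib]
  refine ⟨fun τ => Complex.exp (Pool.Agent.TH339.MP.bl (Pool.Agent.TH339.MP.bα α S) τ),
    ⟨_, h3, fun τ hτ C => ?_⟩, fun K hK T hT => ?_⟩
  · have h5 := Pool.Agent.TH339.MP.bl_angle hb hτ C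
    have h6 : Tendsto (fun s : ℂ => s - (1 + τ * Complex.I)) (𝓝[angle τ C] (1 + τ * Complex.I))
        (𝓝[{z : ℂ | 0 < z.re ∧ ‖z‖ ≤ C * z.re}] 0) := by
      rw [tendsto_nhdsWithin_iff]
      constructor
      · have h7 : Tendsto (fun s : ℂ => s - (1 + τ * Complex.I)) (𝓝 (1 + τ * Complex.I))
            (𝓝 ((1 + τ * Complex.I) - (1 + τ * Complex.I))) :=
          (continuous_id.sub continuous_const).tendsto _
        rw [sub_self] at h7
        exact h7.mono_left nhdsWithin_le_nhds
      · filter_upwards [self_mem_nhdsWithin] with s hs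
        have hre : (s - (1 + τ * Complex.I)).re = s.re - 1 := by simp
        refine ⟨?_, ?_⟩
        · rw [hre]
          linarith [hs.1]
        · rw [hre]
          exact hs.2
    have h7 := (Complex.continuous_exp.tendsto _).comp (h5.comp h6)
    refine h7.congr' ?_
    filter_upwards [self_mem_nhdsWithin] with s hs
    rw [hL s hs.1]
    simp only [Function.comp_apply]
    congr 2
    ring
  · exact Pool.Agent.TH345.ET.shifts hN h1 (fun p _ _ i => hα0 p i) K T hT

end Pool.Agent.Results.MP_eea520_nt.EdgeTranscendence
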