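import Pool.Agent.TH933.TE.E8

/-!
# Twists by Dirichlet characters near the edge of absolute convergence, uniformly in the representation

Let `π` be an automorphic representation, unramified outside `S` and tempered at the primes outside
`S`, with Satake parameters `A_p` in the L-group `H` (for `GSp(2n)` the group `GSpin(2n+1)` over the
complex numbers), and `ρ` a representation of `H` of dimension `N`.  For a Dirichlet character `χ`
the twisted partial L-function `L_S(s, π ⊗ χ, ρ)` converges absolutely for `Re s > 1`.  No continuation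
is known or assumed.  The theorem says that for almost all `χ` it is, up to a factor close to one, a
very short Euler product, up to the edge, as the generalised Riemann hypothesis predicts.
-/

set_option autoImplicit false

namespace Pool.Agent.Results.MP_eea520_nt.TwistedEdge

open Filter Topology MeasureTheory

/-- `g` lies in a compact subgroup of `H`. -/
def IsTempered {H : Type} [Group H] [TopologicalSpace H] (g : H) : Prop :=
  ∃ C : Subgroup H, IsCompact (C : Set H) ∧ g ∈ C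

section
variable {H : Type} [Group H] {N : ℕ}

open Classical in
/-- The partial L-function `L_S(s, π ⊗ χ, ρ) = ∏_{p ∉ S} det(1 - χ(p) ρ(A_p) p^{-s})⁻¹`. -/
noncomputable def twistedL (A : ℕ → H) (ρ : H →* Matrix (Fin N) (Fin N) ℂ) (S : Finset ℕ)
    {q : ℕ} (χ : DirichletCharacter ℂ q) (s : ℂ) : ℂ :=
  ∏' p : Nat.Primes, if (p : ℕ) ∈ S then 1 else
    ((1 - (χ ((p : ℕ) : ZMod q) * ((p : ℕ) : ℂ) ^ (-s)) • ρ (A p)).det)⁻¹

/-- The same product over the primes `p ≤ y`, `p ∉ S` only. -/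
noncomputable def shortL (A : ℕ → H) (ρ : H →* Matrix (Fin N) (Fin N) ℂ) (S : Finset ℕ)
    {q : ℕ} (χ : DirichletCharacter ℂ q) (y : ℝ) (s : ℂ) : ℂ :=
  ∏ p ∈ (Finset.range (⌊y⌋₊ + 1)).filter fun p => p.Prime ∧ p ∉ S,
    ((1 - (χ (p : ZMod q) * (p : ℂ) ^ (-s)) • ρ (A p)).det)⁻¹

end

/-- The angle `|s - (1 + iτ)| ≤ K (Re s - 1)` at `1 + iτ` in the half-plane `Re s > 1`. -/
def angle (τ K : ℝ) : Set ℂ :=
  {s : ℂ | 1 < s.re ∧ ‖s - (1 + τ * Complex.I)‖ ≤ K * (s.re - 1)}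

/-- **Twists at the edge.**  For every dimension `N` and `ε > 0` there are `y₀, c, C`, `c > 0`, such that
for all large `Q`, for ALL topological groups `H`, elements `A_p` (`p ∉ S` prime) of compact subgroups of
`H` and continuous representations `ρ` of `H` of dimension `N`, there is a set `E` of at most `Q ^ ε`
Dirichlet characters such that for every primitive `χ` of conductor `q ≤ Q` outside `E`:

1. for `Re s ≥ 1 + Q^(-c)`, `|Im s| ≤ Q^c` the function `L_S(s, π ⊗ χ, ρ)` is the product over the primes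
`p ≤ (log Q)^y₀` times `exp(z)`, `|z| ≤ C / log Q`; and `L_S` and `1 / L_S` are at most
`C (log log Q)^N` in absolute value there;

2. for all real `τ`, `|τ| ≤ Q^c`, outside a set of measure at most `Q^(-c)`, `L_S(s, π ⊗ χ, ρ)` has a limit
for `s → 1 + iτ` in every angle in the half-plane `Re s > 1`, and this boundary value is the product over
`p ≤ (log Q)^y₀` at `1 + iτ` times `exp(z)`, `|z| ≤ C / log Q`. -/
theorem result (N : ℕ) (ε : ℝ) (hε : 0 < ε) :
    ∃ y₀ c C : ℝ, 0 < c ∧ ∀ᶠ Q : ℕ in atTop,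
      ∀ (H : Type) [Group H] [TopologicalSpace H] (A : ℕ → H) (S : Finset ℕ)
        (_ : ∀ p : ℕ, p.Prime → p ∉ S → IsTempered (A p))
        (ρ : H →* Matrix (Fin N) (Fin N) ℂ) (_ : Continuous ρ),
      ∃ E : Finset (Σ q : ℕ, DirichletCharacter ℂ q), (E.card : ℝ) ≤ (Q : ℝ) ^ ε ∧
        ∀ q : ℕ, 1 ≤ q → q ≤ Q → ∀ χ : DirichletCharacter ℂ q, χ.IsPrimitive →
          (⟨q, χ⟩ : Σ q : ℕ, DirichletCharacter ℂ q) ∉ E →
          (∀ s : ℂ, 1 + (Q : ℝ) ^ (-c) ≤ s.re → |s.im| ≤ (Q : ℝ) ^ c →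
            (∃ z : ℂ, ‖z‖ ≤ C / Real.log Q ∧
              twistedL A ρ S χ s = shortL A ρ S χ ((Real.log Q) ^ y₀) s * Complex.exp z) ∧
            ‖twistedL A ρ S χ s‖ ≤ C * (Real.log (Real.log Q)) ^ N ∧
            ‖(twistedL A ρ S χ s)⁻¹‖ ≤ C * (Real.log (Real.log Q)) ^ N) ∧
          ∃ B : Set ℝ, volume B ≤ ENNReal.ofReal ((Q : ℝ) ^ (-c)) ∧
            ∀ τ : ℝ, |τ| ≤ (Q : ℝ) ^ c → τ ∉ B → ∃ z : ℂ, ‖z‖ ≤ C / Real.log Q ∧
              ∀ K : ℝ, Tendsto (twistedL A ρ S χ) (𝓝[angle τ K] (1 + τ * Complex.I))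
                (𝓝 (shortL A ρ S χ ((Real.log Q) ^ y₀) (1 + τ * Complex.I) * Complex.exp z)) := by
  classical
  obtain ⟨C₀, hC₀, hsize⟩ := Pool.Agent.TH933.TE.size
  obtain ⟨y₀, hy₀⟩ : ∃ y₀ : ℝ, y₀ = 3 + 36 / (ε / 4) := ⟨_, rfl⟩
  have hy3 : 3 ≤ y₀ := by
    have : 0 ≤ 36 / (ε / 4) := by positivity
    linarith
  have hη : 18 / (y₀ - 1) ≤ ε / 4 / 2 := by
    have h1 : 0 < y₀ - 1 := by linarith
    rw [div_le_iff₀ h1, hy₀]
    have h2 : ε / 4 / 2 * (3 + 36 / (ε / 4) - 1) = ε / 4 + 18 := by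
      field_simp
      ring
    linarith
  obtain ⟨C, hC⟩ : ∃ C : ℝ, C = 3 + Real.exp 1 * (y₀ * Real.exp C₀) ^ N := ⟨_, rfl⟩
  have hCpos : 0 ≤ Real.exp 1 * (y₀ * Real.exp C₀) ^ N := by positivity
  refine ⟨y₀, ε / 100, C, by positivity, ?_⟩
  filter_upwards [Pool.Agent.TH933.TE.params N hε hy3] with Q hG
  intro H _ _ A S hA ρ hρ
  set T := ⌈(Q : ℝ) ^ (ε / 50)⌉₊ with hT
  set J := ⌈(Q : ℝ) ^ (ε / 50 * 2)⌉₊ with hJ
  set R := ⌈(Q : ℝ) ^ (ε / 50 * 6)⌉₊ with hR
  have hL16 := hG.hL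
  have hL0 : 0 < Real.log Q := by linarith
  have hll : 0 < Real.log (Real.log Q) := Real.log_pos (by linarith)
  have hQ1 : (1 : ℝ) ≤ Q := by
    rcases Nat.eq_zero_or_pos Q with h | h
    · rw [h] at hL0; simp at hL0
    · exact_mod_cast h
  -- the eigenvalues
  choose α hα using fun p : ℕ => Pool.Agent.TH933.TE.exists_eig (ρ (A p))
  have h1 : ∀ p : ℕ, p.Prime → p ∉ S → ∀ j, ‖α p j‖ ≤ 1 := by
    intro p hp hpS j
    obtain ⟨K, hK, hg⟩ := hA p hp hpS
    refine Pool.Agent.TH339.MP.eig_le_one ρ hρ K hK hg ?_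
    rw [hα p]
    exact Multiset.mem_map_of_mem _ (Finset.mem_univ_val j)
  have hy0 : 0 ≤ (Real.log Q) ^ y₀ := by positivity
  have hy3' : 3 ≤ (Real.log Q) ^ y₀ := by
    have h2 : Real.log Q ≤ (Real.log Q) ^ y₀ := by
      calc Real.log Q = (Real.log Q) ^ (1 : ℝ) := (Real.rpow_one _).symm
        _ ≤ _ := Real.rpow_le_rpow_of_exponent_le (by linarith) (by linarith)
    linarith
  refine ⟨Pool.Agent.TH933.TE.EX (Pool.Agent.TH933.TE.trc α S) ((Real.log Q) ^ y₀) Q J R T, ?_, ?_⟩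
  · exact (Pool.Agent.TH933.TE.card_EX (Pool.Agent.TH933.TE.norm_trc h1) hy3 hη hG.hL1 hG.hN hG.hη
      J R T).trans hG.hcard
  intro q hq hqQ χ hχ hE
  have hloc : ∀ (p : ℕ) (s : ℂ), ((1 - (χ (p : ZMod q) * (p : ℂ) ^ (-s)) • ρ (A p)).det)⁻¹ =
      ∏ j, (1 - Pool.Agent.TH933.TE.tw α χ p j * (p : ℂ) ^ (-s))⁻¹ := by
    intro p s
    rw [Pool.Agent.TH339.MP.det_one_sub _ _ (hα p), Finset.prod_inv_distrib]
    congr 1
    refine Finset.prod_congr rfl fun j _ => ?_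
    unfold Pool.Agent.TH933.TE.tw
    ring
  have hL : ∀ s : ℂ, 1 < s.re → twistedL A ρ S χ s =
      Complex.exp (Pool.Agent.TH339.MP.FF (Pool.Agent.TH339.MP.bα (Pool.Agent.TH933.TE.tw α χ) S) s) := by
    intro s hs
    rw [← (Pool.Agent.TH339.MP.hasProd_α (Pool.Agent.TH933.TE.norm_tw (S := S) h1 χ) hs).tprod_eq]
    unfold twistedL
    refine tprod_congr fun p => ?_
    unfold Pool.Agent.TH339.MP.fα
    by_cases hp : (p : ℕ) ∈ S
    · rw [if_pos hp, if_pos hp]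
    · rw [if_neg hp, if_neg hp, hloc]
  have hsh : ∀ s : ℂ, 1 ≤ s.re → shortL A ρ S χ ((Real.log Q) ^ y₀) s =
      Complex.exp (∑ p ∈ Pool.Agent.TH933.TE.PY ((Real.log Q) ^ y₀),
        Pool.Agent.TH339.MP.lα (Pool.Agent.TH933.TE.tw α χ) S s p) := by
    intro s hs
    rw [← Pool.Agent.TH933.TE.sp_eq (Pool.Agent.TH933.TE.norm_tw (S := S) h1 χ) _ hs]
    unfold shortL Pool.Agent.TH933.TE.sp Pool.Agent.TH339.MP.fα
    rw [Pool.Agent.TH933.TE.prod_PY
      (fun p => ∏ j, (1 - Pool.Agent.TH933.TE.tw α χ p j * (p : ℂ) ^ (-s))⁻¹) hy0 S]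
    exact Finset.prod_congr rfl fun p _ => hloc p s
  have hcc : (Q : ℝ) ^ (-(ε / 50)) ≤ (Q : ℝ) ^ (-(ε / 100)) :=
    Real.rpow_le_rpow_of_exponent_le hQ1 (by linarith)
  refine ⟨fun s hs1 hs2 => ?_, ?_⟩
  · have hs1' : 1 + (Q : ℝ) ^ (-(ε / 50)) ≤ s.re := by linarith
    have hQp : 0 < (Q : ℝ) ^ (-(ε / 100)) := by positivity
    have hs : 1 < s.re := by linarith
    have h2 := Pool.Agent.TH933.TE.half h1 hG hq hqQ χ hχ hE hs1' (hs2.trans hG.hT)
    have h3 := hsize N (Pool.Agent.TH933.TE.tw α χ) S (Pool.Agent.TH933.TE.norm_tw (S := S) h1 χ)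
      ((Real.log Q) ^ y₀) hy3' s hs.le
    have h4 := Pool.Agent.TH933.TE.size_exp hy3 hL16 h3 h2
    rw [← hL s hs] at h4
    have h0 : 0 ≤ (Real.log (Real.log Q)) ^ N := by positivity
    refine ⟨⟨Pool.Agent.TH339.MP.FF (Pool.Agent.TH339.MP.bα (Pool.Agent.TH933.TE.tw α χ) S) s -
      ∑ p ∈ Pool.Agent.TH933.TE.PY ((Real.log Q) ^ y₀),
        Pool.Agent.TH339.MP.lα (Pool.Agent.TH933.TE.tw α χ) S s p, ?_, ?_⟩, ?_, ?_⟩
    · refine h2.trans (div_le_div_of_nonneg_right ?_ hL0.le)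
      rw [hC]; linarith
    · rw [hL s hs, hsh s hs.le, ← Complex.exp_add]
      congr 1
      ring
    · refine h4.1.trans (mul_le_mul_of_nonneg_right ?_ h0)
      rw [hC]; linarith
    · have h5 : 0 < ‖twistedL A ρ S χ s‖ := by
        rw [hL s hs]; exact norm_pos_iff.2 (Complex.exp_ne_zero _)
      rw [norm_inv, inv_le_iff_one_le_mul₀ h5]
      refine h4.2.trans (mul_le_mul_of_nonneg_right (mul_le_mul_of_nonneg_right ?_ h0) h5.le)
      rw [hC]; linarith
  · obtain ⟨B, hB1, hB2⟩ := Pool.Agent.TH933.TE.edge h1 hG hq hqQ χ hχ hE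
    refine ⟨B, hB1, fun τ hτ hτB => ?_⟩
    obtain ⟨h2, h3⟩ := hB2 τ (hτ.trans hG.hT) hτB
    refine ⟨Pool.Agent.TH339.MP.bl (Pool.Agent.TH339.MP.bα (Pool.Agent.TH933.TE.tw α χ) S) τ -
      ∑ p ∈ Pool.Agent.TH933.TE.PY ((Real.log Q) ^ y₀),
        Pool.Agent.TH339.MP.lα (Pool.Agent.TH933.TE.tw α χ) S (1 + τ * Complex.I) p, ?_, fun K => ?_⟩
    · refine h3.trans (div_le_div_of_nonneg_right ?_ hL0.le)
      rw [hC]; linarith
    · rw [hsh (1 + τ * Complex.I) (by simp), ← Complex.exp_add, add_sub_cancel]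
      have hb := Pool.Agent.TH339.MP.norm_bα (Pool.Agent.TH933.TE.norm_tw (S := S) h1 χ)
      have h5 := Pool.Agent.TH339.MP.bl_angle hb h2 K
      have h6 : Tendsto (fun s : ℂ => s - (1 + τ * Complex.I)) (𝓝[angle τ K] (1 + τ * Complex.I))
          (𝓝[{z : ℂ | 0 < z.re ∧ ‖z‖ ≤ K * z.re}] 0) := by
        rw [tendsto_nhdsWithin_iff]
        constructor
        · have h7 : Tendsto (fun s : ℂ => s - (1 + τ * Complex.I)) (𝓝 (1 + τ * Complex.I))
              (𝓝 ((1 + τ * Complex.I) - (1 + τ * Complex.I))) :=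
            (continuous_id.sub continuous_const).tendsto _
          rw [sub_self] at h7
          exact h7.mono_left nhdsWithin_le_nhds
        · filter_upwards [self_mem_nhdsWithin] with s hs
          have hre : (s - (1 + τ * Complex.I)).re = s.re - 1 := by simp
          refine ⟨?_, ?_⟩
          · rw [hre]
            linarith [hs.1]
          · rw [hre]
            exact hs.2
      have h7 := (Complex.continuous_exp.tendsto _).comp (h5.comp h6)
      refine h7.congr' ?_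
      filter_upwards [self_mem_nhdsWithin] with s hs
      rw [hL s hs.1]
      simp only [Function.comp_apply]
      congr 2
      ring

end Pool.Agent.Results.MP_eea520_nt.TwistedEdge
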